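import Pool.Agent.Q161.ESM.Stm2
import Pool.Agent.Q237.EA.Lsf

/-!
# Project ESM, job LSF2: the large sieve for characters (primes of a set `P0`)

Adapted from `Pool/Agent/Q237/EA/Lsf.lean`.
-/

set_option autoImplicit false

namespace Pool.Agent.Q184.ESM

open Finset NumberField IsDedekindDomain
open Pool.Agent.Q161.EA Pool.Agent.Q51.EL
open Pool.Agent.Q161.ESM (ChP S_LSF2)
open Pool.Agent.Q237.EA

section

variable {L : Type} [Field L] [NumberField L] {n : ℕ} (b : Module.Basis (Fin n) ℤ (𝓞 L)) (M : ℕ)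

theorem sum_zero2 {B : ℕ} {P0 : Set ℕ} {ψ : ℕ → 𝓞 L → ℝ} (hψ : ChP L B P0 ψ) {t : ℕ}
    [Fact t.Prime] (hB : ¬ t ∣ B) (hN : t ∈ P0) :
    ∑ x : Fin n → ZMod t, ψ t (rp b M t x) = 0 := by
  have htp : t.Prime := Fact.out
  obtain ⟨u, w, huw, hu⟩ := hψ.neg t htp hB hN
  have h1 := Equiv.sum_comp (mulE b M t u w huw) (fun x => ψ t (rp b M t x))
  have h2 : ∀ x : Fin n → ZMod t, ψ t (rp b M t (mulE b M t u w huw x)) = - ψ t (rp b M t x) := by
    intro x
    have h3 : (t : 𝓞 L) ∣ rp b M t (mulE b M t u w huw x) - u * rp b M t x := rp_crd b M t _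
    rw [hψ.red t _ _ htp h3, hψ.mul, hu]
    ring
  rw [Finset.sum_congr rfl fun x _ => h2 x, Finset.sum_neg_distrib] at h1
  linarith

end

open Classical in
/-- JOB LSF2 -/
theorem lsf2 : S_LSF2 := by
  intro L _ _
  obtain ⟨b, C1, hC1, hb⟩ := Pool.Agent.Q247.EL.exists_basis L
  refine ⟨6 * (2 * C1 + 3), by positivity, ?_⟩
  intro B P0 ψ hψ W R P A c hW hR hP hA
  obtain ⟨M, hM⟩ : ∃ M, M = ⌈C1 * W⌉₊ := ⟨_, rfl⟩
  have hW0 : 0 ≤ W := by linarith
  have hM1 : C1 * W ≤ M := by
    rw [hM]
    exact Nat.le_ceil _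
  have hM2 : (M : ℝ) ≤ C1 * W + 1 := by
    rw [hM]
    exact (Nat.ceil_lt_add_one (by positivity)).le
  obtain ⟨N, hN⟩ : ∃ N, N = 2 * M + 1 := ⟨_, rfl⟩
  -- coordinates
  have hco : ∀ β ∈ A, ∀ i, |b.repr β i| ≤ (M : ℤ) := by
    intro β hβ i
    have h1 := (hb β W hW0 (hA β hβ) i).trans hM1
    have h2 : ((|b.repr β i| : ℤ) : ℝ) ≤ ((M : ℤ) : ℝ) := by
      push_cast
      exact h1
    exact_mod_cast h2
  -- transport of sums over `A`
  have hsum : ∀ f : 𝓞 L → ℝ, ∑ α ∈ A, f α =
      ∑ z ∈ Fintype.piFinset (fun _ : Fin (Module.finrank ℚ L) => Icc 1 N),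
        (if bet b M z ∈ A then f (bet b M z) else 0) := by
    intro f
    rw [← Finset.sum_filter]
    refine Finset.sum_bij' (fun β _ => fun i => (b.repr β i + M + 1).toNat)
      (fun z _ => bet b M z) ?_ ?_ ?_ ?_ ?_
    · intro β hβ
      have hz : ∀ i, (((b.repr β i + M + 1).toNat : ℕ) : ℤ) = b.repr β i + M + 1 := by
        intro i
        have h1 := abs_le.1 (hco β hβ i)
        exact Int.toNat_of_nonneg (by linarith [h1.1])
      rw [Finset.mem_filter, Fintype.mem_piFinset]
      refine ⟨fun i => ?_, ?_⟩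
      · have h1 := abs_le.1 (hco β hβ i)
        have h2 := hz i
        rw [Finset.mem_Icc]
        constructor
        · have : (1 : ℤ) ≤ ((b.repr β i + M + 1).toNat : ℕ) := by rw [h2]; linarith [h1.1]
          exact_mod_cast this
        · have : (((b.repr β i + M + 1).toNat : ℕ) : ℤ) ≤ (N : ℤ) := by
            rw [h2, hN]
            push_cast
            linarith [h1.2]
          exact_mod_cast this
      · have e : bet b M (fun i => (b.repr β i + M + 1).toNat) = β := by
          apply b.repr.injective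
          ext i
          rw [repr_bet, hz i]
          ring
        rw [e]
        exact hβ
    · intro z hz
      exact (Finset.mem_filter.1 hz).2
    · intro β hβ
      have hz : ∀ i, (((b.repr β i + M + 1).toNat : ℕ) : ℤ) = b.repr β i + M + 1 := by
        intro i
        have h1 := abs_le.1 (hco β hβ i)
        exact Int.toNat_of_nonneg (by linarith [h1.1])
      apply b.repr.injective
      ext i
      rw [repr_bet, hz i]
      ring
    · intro z hz
      funext i
      rw [repr_bet]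
      have : (z i : ℤ) - (M : ℤ) - 1 + M + 1 = z i := by ring
      rw [this, Int.toNat_natCast]
    · intro β hβ
      have hz : ∀ i, (((b.repr β i + M + 1).toNat : ℕ) : ℤ) = b.repr β i + M + 1 := by
        intro i
        have h1 := abs_le.1 (hco β hβ i)
        exact Int.toNat_of_nonneg (by linarith [h1.1])
      have e : bet b M (fun i => (b.repr β i + M + 1).toNat) = β := by
        apply b.repr.injective
        ext i
        rw [repr_bet, hz i]
        ring
      show f β = f (bet b M (fun i => (b.repr β i + M + 1).toNat))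
      rw [e]
  -- the functions modulo `t`
  set g : (t : ℕ) → (Fin (Module.finrank ℚ L) → ZMod t) → ℂ := fun t x =>
    ((ψ t (rp b M t x) : ℝ) : ℂ) with hg
  set c' : (Fin (Module.finrank ℚ L) → ℕ) → ℂ := fun z =>
    (((if bet b M z ∈ A then c (bet b M z) else 0 : ℝ)) : ℂ) with hc'
  have hmain := all_primes (Module.finrank ℚ L) N ⌊R⌋₊ P
    (fun t ht => ⟨(hP t ht).1, Nat.le_floor (hP t ht).2.2.2⟩) g
    (fun t ht x => by
      rw [hg]
      simp only
      rw [Complex.norm_real]
      exact hψ.abs t _)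
    (fun t ht s hs => by
      haveI : Fact t.Prime := ⟨(hP t ht).1⟩
      have h1 : s = Finset.univ := by
        ext x
        simp [hs x]
      rw [h1, hg]
      simp only
      rw [← Complex.ofReal_sum, sum_zero2 b M hψ (hP t ht).2.1 (hP t ht).2.2.1]
      exact Complex.ofReal_zero)
    c'
  have hl : ∀ t ∈ P, (∑ α ∈ A, c α * ψ t α) ^ 2 =
      ‖∑ z ∈ Fintype.piFinset (fun _ : Fin (Module.finrank ℚ L) => Icc 1 N),
        c' z * g t (fun i => ((z i : ℕ) : ZMod t))‖ ^ 2 := by
    intro t ht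
    haveI : Fact t.Prime := ⟨(hP t ht).1⟩
    rw [hsum (fun α => c α * ψ t α)]
    have e1 : ∀ z : Fin (Module.finrank ℚ L) → ℕ, c' z * g t (fun i => ((z i : ℕ) : ZMod t)) =
        (((if bet b M z ∈ A then c (bet b M z) * ψ t (bet b M z) else 0 : ℝ)) : ℂ) := by
      intro z
      rw [hc', hg]
      simp only
      rw [← Complex.ofReal_mul]
      congr 1
      have e2 : ψ t (rp b M t (fun i => ((z i : ℕ) : ZMod t))) = ψ t (bet b M z) := by
        apply hψ.red t _ _ (hP t ht).1
        have := rp_crd b M t (bet b M z)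
        rw [crd_bet] at this
        exact this
      rw [e2]
      split_ifs
      · rfl
      · rw [zero_mul]
    rw [Finset.sum_congr rfl fun z _ => e1 z, ← Complex.ofReal_sum, Complex.norm_real,
      Real.norm_eq_abs, sq_abs]
  have hr : ∑ z ∈ Fintype.piFinset (fun _ : Fin (Module.finrank ℚ L) => Icc 1 N), ‖c' z‖ ^ 2 =
      ∑ α ∈ A, c α ^ 2 := by
    rw [hsum (fun α => c α ^ 2)]
    refine Finset.sum_congr rfl fun z _ => ?_
    rw [hc']
    simp only
    rw [Complex.norm_real, Real.norm_eq_abs, sq_abs]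
    split_ifs
    · rfl
    · norm_num
  rw [Finset.sum_congr rfl hl]
  refine hmain.trans ?_
  rw [hr]
  refine mul_le_mul_of_nonneg_right ?_ (Finset.sum_nonneg fun α _ => sq_nonneg _)
  refine pow_le_pow_left₀ (by positivity) ?_ _
  have hF : ((⌊R⌋₊ : ℕ) : ℝ) ^ 2 ≤ R ^ 2 :=
    pow_le_pow_left₀ (Nat.cast_nonneg _) (Nat.floor_le (by linarith)) 2
  have hNr : (N : ℝ) = 2 * M + 1 := by rw [hN]; push_cast; ring
  rw [hNr]
  nlinarith [sq_nonneg R]

end Pool.Agent.Q184.ESM
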